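import Pool.Agent.Q107.IRG.CycleMain

/-!
# All odd cycles of length at least 17 are IR-graphs

Definitions (`Pool.Agent.Q107.IRG.Defs`): `IsIrredundant`, `IRNum`, `IRSet`, `Slide`, `irGraph`.

For odd `n ≥ 17` take the graph on the integers modulo `n` in which distinct `x`, `y` are adjacent
unless `x - y` is one of `1, -1, 5, -5`.  Its `IR`-sets are the `n` sets `{i, i + 2, i + 4}`, and
the only possible exchanges are those of `i` and `i + 6`.
-/

set_option autoImplicit false

namespace Pool.Agent.Results.MP_4ec7af_co.OddCycles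

open Q107.IRG

/-- **Disproof of Q1.** For every odd `n ≥ 17` the cycle `C_n` is an `IR`-graph: there is a finite
simple graph `G` (on `n` vertices) whose `IR`-graph is isomorphic to `C_n`. -/
theorem result (n : ℕ) (hn : 17 ≤ n) (hodd : Odd n) :
    ∃ (V : Type) (_ : Fintype V) (G : SimpleGraph V),
      Fintype.card V = n ∧ Nonempty (irGraph G ≃g SimpleGraph.cycleGraph n) := by
  obtain ⟨k, rfl⟩ : ∃ k, n = k + 2 := ⟨n - 2, by omega⟩
  exact ⟨ZMod (k + 2), inferInstance, cg (k + 2), ZMod.card (k + 2), cycle_iso k hn hodd⟩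

end Pool.Agent.Results.MP_4ec7af_co.OddCycles
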